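import Pool.Agent.Work.MP_c4e502_gt.Exp

namespace Pool.Agent.Results.MP_c4e502_gt.KernelTransverse

open Pool.Agent.Work.MP_c4e502_gt
open scoped ContDiff

/-- For every `k` a rank two sub-Riemannian structure on `ℝ^(k+2)` with a regular conjugate
covector of order `k + 1` whose kernel is not tangent to the regular conjugate locus, which near
it is the zero set of a smooth function with nonzero differential. -/
theorem result (k : ℕ) : ∃ (X : Fin 2 → (Fin (k + 2) → ℝ) → Fin (k + 2) → ℝ)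
    (q : Fin (k + 2) → ℝ) (U : Set (Fin (k + 2) → ℝ)) (e : (Fin (k + 2) → ℝ) → Fin (k + 2) → ℝ),
    IsSubRiemFrame X ∧ IsExpOn X q U e ∧ ContDiffOn ℝ ∞ e U ∧
    ∃ l ∈ U, IsRegConj e l ∧ Module.finrank ℝ (fderiv ℝ e l).ker = k + 1 ∧
      ∃ F : (Fin (k + 2) → ℝ) → ℝ, ContDiffOn ℝ ∞ F U ∧ (∀ m ∈ U, IsRegConj e m ↔ F m = 0) ∧
        ∃ v ∈ (fderiv ℝ e l).ker, fderiv ℝ F l v ≠ 0 ∧
          v ∉ tangentConeAt ℝ {m | IsRegConj e m} l :=
  main k

end Pool.Agent.Results.MP_c4e502_gt.KernelTransverse
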