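import Pool.Agent.Work.MP_c4e502_gt.Ham

namespace Pool.Agent.Results.MP_c4e502_gt.SingularRegularLocus

open Pool.Agent.Work.MP_c4e502_gt
open scoped ContDiff

/-- A sub-Riemannian structure on `ℝⁿ` whose regular conjugate locus is not even a `C¹` embedded
submanifold near a regular conjugate covector of order one. -/
theorem result : ∃ (n k : ℕ) (X : Fin k → (Fin n → ℝ) → Fin n → ℝ) (q : Fin n → ℝ)
    (e : (Fin n → ℝ) → Fin n → ℝ), IsSubRiemFrame X ∧ IsExp X q e ∧ ContDiff ℝ ∞ e ∧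
    ∃ l, IsRegConj e l ∧ Module.finrank ℝ (fderiv ℝ e l).ker = 1 ∧
      ¬ IsSubmanifoldAt {m | IsRegConj e m} l := by
  refine ⟨8, 6, fr, 0, ex, frame_ok, isExp, ex_smooth, lam 0 1 0,
    reg_iff.self_of_nhds.2 (by simp [phi_lam0]), ?_, not_sub⟩
  have h1 := eta_spec unit_lam
  have h2 : bX 1 (lam 0 1 0) (eta (lam 0 1 0)) = 0 := funext fun i => by
    by_cases hi : i = 7
    · subst hi; exact phi_lam0
    · exact h1.2 i hi
  have h3 : (fderiv ℝ ex (lam 0 1 0)).ker = Submodule.span ℝ {eta (lam 0 1 0)} := by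
    refine le_antisymm (fun v hv => ?_) ((Submodule.span_singleton_le_iff_mem _ _).2 h2)
    have h4 : bX 1 (lam 0 1 0) v = 0 := hv
    have h5 := LM_inj unit_lam (v := v - v 7 • eta (lam 0 1 0)) (by simp [h1.1])
      fun i _ => by simp [h2, h4]
    exact Submodule.mem_span_singleton.2 ⟨v 7, (sub_eq_zero.1 h5).symm⟩
  rw [h3]
  exact finrank_span_singleton fun h => by simpa [h] using h1.1

end Pool.Agent.Results.MP_c4e502_gt.SingularRegularLocus
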